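import Mathlib

/-!
# Interpolation for partitions into indivisible dominating sets

The numbers `k` for which the vertex set of a finite graph can be partitioned into `k` indivisible
dominating sets are exactly those with `ad G ≤ k ≤ d G`.  The proof works for every family of sets
which is closed under supersets.

Proof.  Let `ν A` be the largest number of pairwise disjoint members inside `A`; a set is
indivisible if `ν = 1`.  Let `A` be a smallest set for which the interpolation fails at `k`.  If
`X ⊆ A` is indivisible then `ν (A \ X) ≠ k - 1`, by the minimality of `A` there is an indivisible `X`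
with `ν (A \ X) ≤ k - 2`, hence also a minimal member `M` with `ν (A \ M) ≤ k - 2`.  Among the minimal
members `N` with `ν (A \ N) ≥ k` choose one with `|N \ M|` minimal, and add the elements of `M` to `N`
one by one.  As `ν` of the complement changes by at most one in each step, at some moment
`ν (N ∪ Z ∪ {x})` becomes two, and an exchange of `N` against a member which contains `x`
contradicts the choice of `N`.
-/

set_option autoImplicit false
set_option linter.unusedSectionVars false

universe u

namespace Pool.Agent.Results.MP_a3f2aa_co.Interpolation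

open Finset

section General

variable {α : Type u} [DecidableEq α] (T : Finset α → Prop)

/-- there are `m` pairwise disjoint members inside `A` -/
def Has : ℕ → Finset α → Prop
  | 0, _ => True
  | (m + 1), A => ∃ B ⊆ A, T B ∧ Has m (A \ B)

/-- `A` is a member which does not contain two disjoint members -/
def Ind (A : Finset α) : Prop := T A ∧ ¬ Has T 2 A

/-- `A` is partitioned into `k` indivisible members -/
def Par : ℕ → Finset α → Prop
  | 0, A => A = ∅
  | (k + 1), A => ∃ X ⊆ A, Ind T X ∧ Par k (A \ X)

variable {T}

lemma Has.mono {m : ℕ} {A A' : Finset α} (h : A ⊆ A') (hA : Has T m A) : Has T m A' := by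
  induction m generalizing A A' with
  | zero => trivial
  | succ m ih =>
    obtain ⟨B, hB, hTB, hr⟩ := hA
    exact ⟨B, hB.trans h, hTB, ih (sdiff_subset_sdiff h (Subset.refl B)) hr⟩

lemma Has.pred {m : ℕ} {A : Finset α} (hA : Has T (m + 1) A) : Has T m A := by
  obtain ⟨B, _, _, hr⟩ := hA
  exact hr.mono sdiff_subset

lemma Has.of_le {m n : ℕ} {A : Finset α} (h : m ≤ n) (hA : Has T n A) : Has T m A := by
  induction h with
  | refl => exact hA
  | step _ ih => exact ih hA.pred

lemma Has.erase {m : ℕ} {A A' : Finset α} {x : α} (h : A' ⊆ insert x A) (hA : Has T (m + 1) A') :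
    Has T m A := by
  induction m generalizing A A' with
  | zero => trivial
  | succ m ih =>
    obtain ⟨B, hB, hTB, hr⟩ := hA
    by_cases hx : x ∈ B
    · refine hr.mono ?_
      intro y hy
      rw [mem_sdiff] at hy
      rcases mem_insert.1 (h hy.1) with rfl | h1
      · exact absurd hx hy.2
      · exact h1
    · have hBA : B ⊆ A := by
        intro y hy
        rcases mem_insert.1 (h (hB hy)) with rfl | h1
        · exact absurd hy hx
        · exact h1
      refine ⟨B, hBA, hTB, ih (A' := A' \ B) ?_ hr⟩
      intro y hy
      rw [mem_sdiff] at hy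
      rcases mem_insert.1 (h hy.1) with rfl | h1
      · exact mem_insert_self _ _
      · exact mem_insert_of_mem (mem_sdiff.2 ⟨h1, hy.2⟩)

lemma Has.add {m : ℕ} {A B C : Finset α} (hA : Has T m A) (hB : T B) (hAC : A ⊆ C) (hBC : B ⊆ C)
    (hd : Disjoint A B) : Has T (m + 1) C := by
  refine ⟨B, hBC, hB, hA.mono ?_⟩
  intro y hy
  exact mem_sdiff.2 ⟨hAC hy, fun h => disjoint_left.1 hd hy h⟩

lemma has_two {A B C : Finset α} (hA : T A) (hB : T B) (hAC : A ⊆ C) (hBC : B ⊆ C)
    (hd : Disjoint A B) : Has T 2 C := by
  refine Has.add (A := A) (B := B) ?_ hB hAC hBC hd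
  exact ⟨A, Subset.refl A, hA, trivial⟩

lemma exists_two {C : Finset α} (h : Has T 2 C) :
    ∃ A B, T A ∧ T B ∧ A ⊆ C ∧ B ⊆ C ∧ Disjoint A B := by
  obtain ⟨B, hB, hTB, A, hA, hTA, _⟩ := h
  refine ⟨A, B, hTA, hTB, hA.trans sdiff_subset, hB, ?_⟩
  rw [disjoint_left]
  intro y hy hy2
  exact (mem_sdiff.1 (hA hy)).2 hy2

/-- the number of disjoint members is bounded -/
lemma not_has (h0 : ¬ T ∅) (A : Finset α) : ¬ Has T (A.card + 1) A := by
  have key : ∀ (n : ℕ) (A : Finset α), A.card ≤ n → ¬ Has T (n + 1) A := by
    intro n
    induction n with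
    | zero =>
      rintro A hA ⟨B, hB, hTB, _⟩
      have hA0 : A = ∅ := card_eq_zero.1 (by omega)
      subst hA0
      rw [subset_empty.1 hB] at hTB
      exact h0 hTB
    | succ n ih =>
      rintro A hA ⟨B, hB, hTB, hr⟩
      have hBn : B.Nonempty := by
        rw [nonempty_iff_ne_empty]
        rintro rfl
        exact h0 hTB
      refine ih (A \ B) ?_ hr
      have h1 := card_sdiff_add_card_eq_card hB
      have h2 := hBn.card_pos
      omega
  exact key _ A le_rfl

/-- a minimal member inside a member -/
lemma exists_min {A : Finset α} (hA : T A) : ∃ M ⊆ A, T M ∧ ∀ B ⊆ M, T B → B = M := by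
  induction A using Finset.strongInduction with
  | H A ih =>
    by_cases h : ∃ B ⊂ A, T B
    · obtain ⟨B, hB, hTB⟩ := h
      obtain ⟨M, hM, h1, h2⟩ := ih B hB hTB
      exact ⟨M, hM.trans hB.1, h1, h2⟩
    · push Not at h
      refine ⟨A, Subset.refl A, hA, fun B hB hTB => ?_⟩
      by_contra hne
      exact h B (lt_of_le_of_ne hB hne) hTB

lemma not_two_of_min (h0 : ¬ T ∅) {M : Finset α} (hmin : ∀ B ⊆ M, T B → B = M) :
    ¬ Has T 2 M := by
  intro h
  obtain ⟨A, B, hA, hB, hAM, hBM, hd⟩ := exists_two h
  have e1 := hmin A hAM hA
  have e2 := hmin B hBM hB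
  rw [e1, e2] at hd
  rw [e1] at hA
  rw [disjoint_self.1 hd] at hA
  exact h0 hA

lemma Ind.nonempty (h0 : ¬ T ∅) {X : Finset α} (h : Ind T X) : X.Nonempty := by
  rw [nonempty_iff_ne_empty]
  rintro rfl
  exact h0 h.1

/-- a set which contains `j ≥ 1` disjoint members but not `j + 1` is partitioned into `j`
indivisible members -/
lemma par_of_max (hT : ∀ A B : Finset α, A ⊆ B → T A → T B) {j : ℕ} {A : Finset α} (hj : 1 ≤ j)
    (h1 : Has T j A) (h2 : ¬ Has T (j + 1) A) : Par T j A := by
  induction j generalizing A with
  | zero => omega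
  | succ j ih =>
    obtain ⟨B, hB, hTB, hr⟩ := h1
    by_cases hj0 : j = 0
    · subst hj0
      refine ⟨A, Subset.refl A, ⟨hT B A hB hTB, h2⟩, ?_⟩
      show A \ A = ∅
      simp
    · refine ⟨B, hB, ⟨hTB, fun hB2 => ?_⟩, ih (by omega) hr (fun hr2 => ?_)⟩
      · obtain ⟨C, D, hC, hD, hCB, hDB, hd⟩ := exists_two hB2
        apply h2
        have e1 : Has T (j + 1) ((A \ B) ∪ C) := by
          refine Has.add hr hC subset_union_left subset_union_right ?_
          rw [disjoint_left]
          intro y hy hy2
          exact (mem_sdiff.1 hy).2 (hCB hy2)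
        refine Has.add e1 hD ?_ (hDB.trans hB) ?_
        · exact union_subset sdiff_subset (hCB.trans hB)
        · rw [disjoint_left]
          intro y hy hy2
          rcases mem_union.1 hy with h3 | h3
          · exact (mem_sdiff.1 h3).2 (hDB hy2)
          · exact disjoint_left.1 hd h3 hy2
      · apply h2
        refine Has.add hr2 hTB sdiff_subset hB ?_
        rw [disjoint_left]
        intro y hy hy2
        exact (mem_sdiff.1 hy).2 hy2

/-- **Interpolation** for a family which is closed under supersets. -/
theorem interpolation (hT : ∀ A B : Finset α, A ⊆ B → T A → T B) (h0 : ¬ T ∅) (A : Finset α) :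
    ∀ a k m : ℕ, Par T a A → Has T m A → a ≤ k → k ≤ m → Par T k A := by
  induction A using Finset.strongInduction with
  | H A ih =>
    intro a k m ha hm hak hkm
    by_contra hk
    have hne : a ≠ k := by
      rintro rfl
      exact hk ha
    obtain ⟨a', rfl⟩ : ∃ a', a = a' + 1 := by
      cases a with
      | zero =>
        exfalso
        have hA : A = ∅ := ha
        subst hA
        obtain ⟨m', rfl⟩ : ∃ m', m = m' + 1 := ⟨m - 1, by omega⟩
        obtain ⟨B, hB, hTB, _⟩ := hm
        rw [subset_empty.1 hB] at hTB
        exact h0 hTB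
      | succ a' => exact ⟨a', rfl⟩
    obtain ⟨j, rfl⟩ : ∃ j, k = j + 1 := ⟨k - 1, by omega⟩
    have hj : 1 ≤ j := by omega
    have hHk : Has T (j + 1) A := hm.of_le hkm
    -- (i)
    have hi : ∀ X ⊆ A, Ind T X → Has T j (A \ X) → Has T (j + 1) (A \ X) := by
      intro X hX hI h1
      by_contra h2
      exact hk ⟨X, hX, hI, par_of_max hT hj h1 h2⟩
    -- (ii)
    obtain ⟨X, hXA, hXI, hXP⟩ := ha
    have hXne := hXI.nonempty h0
    have hL : ¬ Has T j (A \ X) := by
      intro h1
      apply hk
      refine ⟨X, hXA, hXI, ih (A \ X) (sdiff_ssubset hXA hXne) a' j j hXP h1 (by omega) le_rfl⟩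
    obtain ⟨M, hMX, hTM, hMmin⟩ := exists_min hXI.1
    have hMA : M ⊆ A := hMX.trans hXA
    have hLM : ¬ Has T j (A \ M) := by
      intro h1
      apply hL
      have key : ∀ Z : Finset α, Z ⊆ X → Has T j (A \ (M ∪ Z)) := by
        intro Z
        induction Z using Finset.induction_on with
        | empty => intro _; rw [union_empty]; exact h1
        | insert z Z _ ihZ =>
          intro hZ
          have hZX : Z ⊆ X := (subset_insert z Z).trans hZ
          have h3 := ihZ hZX
          have hsub : M ∪ Z ⊆ X := union_subset hMX hZX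
          have h4 := hi (M ∪ Z) (hsub.trans hXA)
            ⟨hT M _ subset_union_left hTM, fun h5 => hXI.2 (h5.mono hsub)⟩ h3
          refine Has.erase (x := z) ?_ h4
          intro y hy
          rw [mem_sdiff, mem_union] at hy
          rw [mem_insert, mem_sdiff, mem_union, mem_insert]
          tauto
      have h6 := key X (Subset.refl X)
      rwa [union_eq_right.2 hMX] at h6
    -- (iii)
    have hHk2 : Has T (j + 2) A := by
      by_contra h1
      exact hk (par_of_max hT (by omega) hHk h1)
    let F : Finset (Finset α) := by
      classical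
      exact A.powerset.filter (fun N => (T N ∧ ∀ B ⊆ N, T B → B = N) ∧ Has T (j + 1) (A \ N))
    have hF : ∀ N, N ∈ F ↔ N ⊆ A ∧ (T N ∧ ∀ B ⊆ N, T B → B = N) ∧ Has T (j + 1) (A \ N) := by
      intro N
      simp only [F, mem_filter, mem_powerset]
    have hFne : F.Nonempty := by
      obtain ⟨B, hB, hTB, hr⟩ := hHk2
      obtain ⟨N, hNB, hTN, hNmin⟩ := exists_min hTB
      refine ⟨N, (hF N).2 ⟨hNB.trans hB, ⟨hTN, hNmin⟩, hr.mono ?_⟩⟩
      exact sdiff_subset_sdiff (Subset.refl A) hNB
    obtain ⟨N, hN, hNbest⟩ := F.exists_min_image (fun N => (N \ M).card) hFne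
    obtain ⟨hNA, ⟨hTN, hNmin⟩, hNk⟩ := (hF N).1 hN
    -- (iv)
    have key : ∀ Z : Finset α, Z ⊆ M → ¬ Has T 2 (N ∪ Z) ∧ Has T (j + 1) (A \ (N ∪ Z)) := by
      intro Z
      induction Z using Finset.induction_on with
      | empty =>
        intro _
        rw [union_empty]
        exact ⟨not_two_of_min h0 hNmin, hNk⟩
      | insert x Z hxZ ihZ =>
        intro hZ
        have hxM : x ∈ M := hZ (mem_insert_self x Z)
        have hZM : Z ⊆ M := (subset_insert x Z).trans hZ
        obtain ⟨i1, i2⟩ := ihZ hZM
        by_cases hxN : x ∈ N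
        · have e : N ∪ insert x Z = N ∪ Z := by
            ext y
            simp only [mem_union, mem_insert]
            constructor
            · rintro (h | rfl | h)
              · exact Or.inl h
              · exact Or.inl hxN
              · exact Or.inr h
            · rintro (h | h)
              · exact Or.inl h
              · exact Or.inr (Or.inr h)
          rw [e]
          exact ⟨i1, i2⟩
        · have h7 : Has T j (A \ (N ∪ insert x Z)) := by
            refine Has.erase (x := x) ?_ i2
            intro y hy
            rw [mem_sdiff, mem_union] at hy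
            rw [mem_insert, mem_sdiff, mem_union, mem_insert]
            tauto
          have hmemx : ∀ y ∈ N ∪ insert x Z, y ≠ x → y ∈ N ∪ Z := by
            intro y hy hyx
            simp only [mem_union, mem_insert] at hy ⊢
            tauto
          have h8 : ¬ Has T 2 (N ∪ insert x Z) := by
            intro h9
            -- two disjoint members, the first contains `x`
            have hex : ∃ B₁ B₂, T B₁ ∧ T B₂ ∧ B₁ ⊆ N ∪ insert x Z ∧ B₂ ⊆ N ∪ insert x Z ∧
                Disjoint B₁ B₂ ∧ x ∉ B₂ := by
              obtain ⟨B₁, B₂, t1, t2, s1, s2, hd⟩ := exists_two h9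
              by_cases hx2 : x ∈ B₂
              · exact ⟨B₂, B₁, t2, t1, s2, s1, hd.symm, fun hx1 => disjoint_left.1 hd hx1 hx2⟩
              · exact ⟨B₁, B₂, t1, t2, s1, s2, hd, hx2⟩
            obtain ⟨B₁, B₂, t1, t2, s1, s2, hd, hx2⟩ := hex
            have s2' : B₂ ⊆ N ∪ Z := fun y hy => hmemx y (s2 hy) (by rintro rfl; exact hx2 hy)
            obtain ⟨C, hCB, hTC, hCmin⟩ := exists_min t1
            have hdC : Disjoint C B₂ := disjoint_of_subset_left hCB hd
            have hxC : x ∈ C := by
              by_contra hxC
              apply i1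
              refine has_two hTC t2 ?_ s2' hdC
              exact fun y hy => hmemx y (s1 (hCB hy)) (by rintro rfl; exact hxC hy)
            have hNZA : N ∪ insert x Z ⊆ A := union_subset hNA (hZ.trans hMA)
            have hCF : C ∈ F := by
              refine (hF C).2 ⟨(hCB.trans s1).trans hNZA, ⟨hTC, hCmin⟩, ?_⟩
              refine Has.add h7 t2 ?_ ?_ ?_
              · exact sdiff_subset_sdiff (Subset.refl A) (hCB.trans s1)
              · intro y hy
                exact mem_sdiff.2 ⟨hNZA (s2 hy), fun h => disjoint_left.1 hdC h hy⟩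
              · rw [disjoint_left]
                intro y hy hy2
                exact (mem_sdiff.1 hy).2 (s2 hy2)
            have hle := hNbest C hCF
            have hsub : C \ M ⊆ N \ M := by
              intro y hy
              rw [mem_sdiff] at hy ⊢
              refine ⟨?_, hy.2⟩
              have := s1 (hCB hy.1)
              rw [mem_union] at this
              rcases this with h | h
              · exact h
              · exact absurd (hZ h) hy.2
            have heq : C \ M = N \ M := eq_of_subset_of_card_le hsub hle
            have hB2M : B₂ ⊆ M := by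
              intro y hy
              by_contra hyM
              have h10 : y ∈ N := by
                have := s2' hy
                rw [mem_union] at this
                rcases this with h | h
                · exact h
                · exact absurd (hZM h) hyM
              have h11 : y ∈ C \ M := by
                rw [heq]
                exact mem_sdiff.2 ⟨h10, hyM⟩
              exact disjoint_left.1 hdC (mem_sdiff.1 h11).1 hy
            have hB2 := hMmin B₂ hB2M t2
            rw [← hB2] at hxM
            exact hx2 hxM
          refine ⟨h8, ?_⟩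
          refine hi _ (union_subset hNA (hZ.trans hMA)) ⟨hT N _ subset_union_left hTN, h8⟩ h7
    obtain ⟨_, h12⟩ := key M (Subset.refl M)
    exact hLM ((h12.pred).mono (sdiff_subset_sdiff (Subset.refl A) subset_union_right))

/-! ### Families of sets -/

lemma par_of_family (F : Finset (Finset α)) (hd : (F : Set (Finset α)).PairwiseDisjoint id)
    (hI : ∀ X ∈ F, Ind T X) : Par T F.card (F.sup id) := by
  induction F using Finset.induction_on with
  | empty => rfl
  | insert X F hX ih =>
    rw [card_insert_of_notMem hX, sup_insert, id]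
    have hd' : (F : Set (Finset α)).PairwiseDisjoint id := hd.subset (by simp)
    have hdX : Disjoint X (F.sup id) := by
      rw [Finset.disjoint_sup_right]
      intro Y hY
      have := hd (mem_coe.2 (mem_insert_self X F)) (mem_coe.2 (mem_insert_of_mem hY))
        (by rintro rfl; exact hX hY)
      exact this
    have e : (X ⊔ F.sup id) \ X = F.sup id := by
      rw [sup_sdiff_left_self]
      exact sdiff_eq_self_of_disjoint hdX.symm
    refine ⟨X, le_sup_left, hI X (mem_insert_self X F), ?_⟩
    rw [e]
    exact ih hd' (fun Y hY => hI Y (mem_insert_of_mem hY))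

lemma family_of_par (h0 : ¬ T ∅) {k : ℕ} {A : Finset α} (h : Par T k A) :
    ∃ F : Finset (Finset α), F.card = k ∧ (F : Set (Finset α)).PairwiseDisjoint id ∧
      F.sup id = A ∧ ∀ X ∈ F, Ind T X := by
  induction k generalizing A with
  | zero =>
    have : A = ∅ := h
    subst this
    exact ⟨∅, rfl, by simp, rfl, by simp⟩
  | succ k ih =>
    obtain ⟨X, hX, hI, hP⟩ := h
    obtain ⟨F, h1, h2, h3, h4⟩ := ih hP
    have hsub : ∀ Y ∈ F, Disjoint X Y := by
      intro Y hY
      have : Y ≤ F.sup id := Finset.le_sup (f := id) hY
      rw [h3] at this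
      exact disjoint_of_subset_right this disjoint_sdiff
    have hXF : X ∉ F := by
      intro hXF
      have := hsub X hXF
      obtain ⟨y, hy⟩ := hI.nonempty h0
      exact disjoint_left.1 this hy hy
    refine ⟨insert X F, by rw [card_insert_of_notMem hXF, h1], ?_, ?_, ?_⟩
    · rw [coe_insert, Set.pairwiseDisjoint_insert]
      exact ⟨h2, fun Y hY _ => hsub Y hY⟩
    · rw [sup_insert, h3, id]
      exact sup_sdiff_cancel_right hX
    · intro Y hY
      rcases mem_insert.1 hY with rfl | hY
      · exact hI
      · exact h4 Y hY

lemma has_of_family (F : Finset (Finset α)) (hd : (F : Set (Finset α)).PairwiseDisjoint id)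
    (hI : ∀ X ∈ F, T X) : Has T F.card (F.sup id) := by
  induction F using Finset.induction_on with
  | empty => trivial
  | insert X F hX ih =>
    rw [card_insert_of_notMem hX, sup_insert, id]
    have hd' : (F : Set (Finset α)).PairwiseDisjoint id := hd.subset (by simp)
    have hdX : Disjoint X (F.sup id) := by
      rw [Finset.disjoint_sup_right]
      intro Y hY
      have := hd (mem_coe.2 (mem_insert_self X F)) (mem_coe.2 (mem_insert_of_mem hY))
        (by rintro rfl; exact hX hY)
      exact this
    exact Has.add (ih hd' (fun Y hY => hI Y (mem_insert_of_mem hY))) (hI X (mem_insert_self X F))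
      le_sup_right le_sup_left hdX.symm

end General

variable {V : Type u} [Fintype V] [DecidableEq V]

/-- `D` is dominating: every vertex not in `D` has a neighbour in `D`. -/
def Dominating (G : SimpleGraph V) (D : Finset V) : Prop := ∀ v ∉ D, ∃ w ∈ D, G.Adj v w

/-- `D` is an indivisible dominating set: it is dominating and not the union of two disjoint
nonempty dominating sets. -/
def Indivisible (G : SimpleGraph V) (D : Finset V) : Prop :=
  Dominating G D ∧ ¬ ∃ A B : Finset V, D = A ∪ B ∧ Disjoint A B ∧ A.Nonempty ∧ B.Nonempty ∧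
    Dominating G A ∧ Dominating G B

/-- the domatic number: the largest order of a partition of `V` into dominating sets -/
noncomputable def domaticNumber (G : SimpleGraph V) : ℕ :=
  sSup {m | ∃ P : Finpartition (univ : Finset V), P.parts.card = m ∧ ∀ D ∈ P.parts, Dominating G D}

/-- the adomatic number: the smallest order of a partition of `V` into indivisible dominating
sets -/
noncomputable def adomaticNumber (G : SimpleGraph V) : ℕ :=
  sInf {m | ∃ P : Finpartition (univ : Finset V), P.parts.card = m ∧ ∀ D ∈ P.parts, Indivisible G D}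

lemma dominating_mono (G : SimpleGraph V) : ∀ A B : Finset V, A ⊆ B → Dominating G A →
    Dominating G B := by
  intro A B h hA v hv
  obtain ⟨w, hw, h1⟩ := hA v (fun h2 => hv (h h2))
  exact ⟨w, h hw, h1⟩

lemma not_dominating_empty [Nonempty V] (G : SimpleGraph V) : ¬ Dominating G (∅ : Finset V) := by
  intro h
  obtain ⟨v⟩ := ‹Nonempty V›
  obtain ⟨w, hw, _⟩ := h v (notMem_empty v)
  exact notMem_empty w hw

lemma ind_iff [Nonempty V] (G : SimpleGraph V) (D : Finset V) :
    Ind (Dominating G) D ↔ Indivisible G D := by
  constructor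
  · rintro ⟨h1, h2⟩
    refine ⟨h1, ?_⟩
    rintro ⟨A, B, rfl, hd, _, _, hA, hB⟩
    exact h2 (has_two hA hB subset_union_left subset_union_right hd)
  · rintro ⟨h1, h2⟩
    refine ⟨h1, fun h3 => h2 ?_⟩
    obtain ⟨A, B, hA, hB, hAD, hBD, hd⟩ := exists_two h3
    refine ⟨A, D \ A, (union_sdiff_of_subset hAD).symm, disjoint_sdiff, ?_, ?_, hA, ?_⟩
    · rw [nonempty_iff_ne_empty]
      rintro rfl
      exact not_dominating_empty G hA
    · rw [nonempty_iff_ne_empty]
      intro he
      have : B ⊆ ∅ := by
        rw [← he]
        exact fun y hy => mem_sdiff.2 ⟨hBD hy, fun h => disjoint_left.1 hd h hy⟩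
      rw [subset_empty.1 this] at hB
      exact not_dominating_empty G hB
    · refine dominating_mono G B _ ?_ hB
      exact fun y hy => mem_sdiff.2 ⟨hBD hy, fun h => disjoint_left.1 hd h hy⟩

lemma par_iff [Nonempty V] (G : SimpleGraph V) (k : ℕ) : Par (Dominating G) k univ ↔
    ∃ P : Finpartition (univ : Finset V), P.parts.card = k ∧ ∀ D ∈ P.parts, Indivisible G D := by
  constructor
  · intro h
    obtain ⟨F, h1, h2, h3, h4⟩ := family_of_par (not_dominating_empty G) h
    refine ⟨⟨F, ?_, h3, ?_⟩, h1, fun D hD => (ind_iff G D).1 (h4 D hD)⟩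
    · exact Finset.supIndep_iff_pairwiseDisjoint.2 h2
    · intro hb
      obtain ⟨y, hy⟩ := (h4 _ hb).nonempty (not_dominating_empty G)
      exact notMem_empty y hy
  · rintro ⟨P, h1, h2⟩
    have := par_of_family (T := Dominating G) P.parts
      (Finset.supIndep_iff_pairwiseDisjoint.1 P.supIndep) (fun X hX => (ind_iff G X).2 (h2 X hX))
    rwa [P.sup_parts, h1] at this

/-- **Interpolation theorem for indivisible dominating sets.**  Let `G` be a finite graph with at
least one vertex and `k` a natural number.  The vertex set of `G` can be partitioned into exactly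
`k` indivisible dominating sets if and only if `ad(G) ≤ k ≤ d(G)`. -/
theorem result {V : Type u} [Fintype V] [DecidableEq V] [Nonempty V] (G : SimpleGraph V) (k : ℕ) :
    (∃ P : Finpartition (univ : Finset V), P.parts.card = k ∧ ∀ D ∈ P.parts, Indivisible G D) ↔
      adomaticNumber G ≤ k ∧ k ≤ domaticNumber G := by
  have hb : BddAbove {m | ∃ P : Finpartition (univ : Finset V), P.parts.card = m ∧
      ∀ D ∈ P.parts, Dominating G D} := by
    refine ⟨(univ : Finset V).card, ?_⟩
    rintro m ⟨P, rfl, _⟩
    exact P.card_parts_le_card
  constructor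
  · rintro ⟨P, h1, h2⟩
    exact ⟨Nat.sInf_le ⟨P, h1, h2⟩, le_csSup hb ⟨P, h1, fun D hD => (h2 D hD).1⟩⟩
  · rintro ⟨h1, h2⟩
    have h0 := not_dominating_empty G
    have hmono := dominating_mono G
    -- the domatic number is attained
    have hd : domaticNumber G ∈ {m | ∃ P : Finpartition (univ : Finset V), P.parts.card = m ∧
        ∀ D ∈ P.parts, Dominating G D} := by
      refine Nat.sSup_mem ⟨1, ?_⟩ hb
      have hne : (univ : Finset V) ≠ ⊥ := univ_nonempty.ne_empty
      refine ⟨Finpartition.indiscrete hne, by simp, fun D hD => ?_⟩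
      have : D = univ := by simpa using hD
      subst this
      intro v hv
      exact absurd (mem_univ v) hv
    obtain ⟨Q, hQ1, hQ2⟩ := hd
    have hHas : Has (Dominating G) (domaticNumber G) univ := by
      have := has_of_family (T := Dominating G) Q.parts
        (Finset.supIndep_iff_pairwiseDisjoint.1 Q.supIndep) hQ2
      rwa [Q.sup_parts, hQ1] at this
    -- the adomatic number is attained
    have hne : {m | ∃ P : Finpartition (univ : Finset V), P.parts.card = m ∧
        ∀ D ∈ P.parts, Indivisible G D}.Nonempty := by
      classical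
      have hex : ∃ j, ¬ Has (Dominating G) (j + 1) (univ : Finset V) := ⟨_, not_has h0 _⟩
      have hspec := Nat.find_spec hex
      have hpos : 1 ≤ Nat.find hex := by
        by_contra hlt
        have e : Nat.find hex = 0 := by omega
        rw [e] at hspec
        apply hspec
        exact ⟨univ, Subset.refl _, fun v hv => absurd (mem_univ v) hv, trivial⟩
      refine ⟨Nat.find hex, (par_iff G _).1 (par_of_max hmono hpos ?_ hspec)⟩
      have hmin := Nat.find_min hex (m := Nat.find hex - 1) (by omega)
      rw [not_not] at hmin
      have e : Nat.find hex - 1 + 1 = Nat.find hex := by omega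
      rwa [e] at hmin
    have had : adomaticNumber G ∈ {m | ∃ P : Finpartition (univ : Finset V), P.parts.card = m ∧
        ∀ D ∈ P.parts, Indivisible G D} := Nat.sInf_mem hne
    have hPar : Par (Dominating G) (adomaticNumber G) univ := (par_iff G _).2 had
    exact (par_iff G k).1 (interpolation hmono h0 univ _ k _ hPar hHas h1 h2)

end Pool.Agent.Results.MP_a3f2aa_co.Interpolation
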